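import Mathlib

set_option autoImplicit false
open Function

namespace Pool.Agent.Results.MP_d11917_an.Strip

/-- Ant configurations: grid, position, direction. -/
abbrev Conf (m : ℕ) := (ℤ × ℤ → Fin m) × (ℤ × ℤ) × (ℤ × ℤ)

/-- The new direction: quarter turn clockwise for `R` (`true`), counterclockwise for `L`. -/
def turn (r : Bool) (q : ℤ × ℤ) : ℤ × ℤ := if r then (q.2, -q.1) else (-q.2, q.1)

/-- One step of the generalised ant with rule word `w` (`true` is `R`, `false` is `L`). -/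
def T {m : ℕ} [NeZero m] (w : Fin m → Bool) (C : Conf m) : Conf m :=
  (update C.1 C.2.1 (C.1 C.2.1 + 1), C.2.1 + turn (w (C.1 C.2.1)) C.2.2, turn (w (C.1 C.2.1)) C.2.2)

/-- Cells visited infinitely often. -/
def Rec {m : ℕ} [NeZero m] (w : Fin m → Bool) (C : Conf m) : Set (ℤ × ℤ) :=
  {x | {t : ℕ | ((T w)^[t] C).2.1 = x}.Infinite}

def W : Fin 4 → Bool := ![false, false, true, true]

def Run (C D : Conf 4) : Prop :=
  ∃ n, 0 < n ∧ (T W)^[n] C = D ∧ ∀ t < n, ((T W)^[t] C).2.1.2 ∈ Set.Icc (-1 : ℤ) 2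

theorem Run.trans {C D E : Conf 4} (h : Run C D) (h' : Run D E) : Run C E := by
  obtain ⟨n, hn, rfl, h⟩ := h
  obtain ⟨k, hk, rfl, h'⟩ := h'
  refine ⟨k + n, by omega, iterate_add_apply _ _ _ _, fun t ht => ?_⟩
  by_cases htn : t < n
  · exact h t htn
  · obtain ⟨s, rfl⟩ : ∃ s, t = s + n := ⟨t - n, by omega⟩
    rw [iterate_add_apply]; exact h' s (by omega)

theorem one (c : ℤ × ℤ → Fin 4) (p q p' q' : ℤ × ℤ) (a : Fin 4) (ha : c p = a)
    (h : p.2 ∈ Set.Icc (-1 : ℤ) 2) (hq : turn (W a) q = q') (hp : p + q' = p') :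
    Run (c, p, q) (update c p (a + 1), p', q') := by
  subst ha hq hp
  exact ⟨1, one_pos, rfl, fun t ht => by obtain rfl : t = 0 := by omega
                                         exact h⟩

def ρ (p : ℤ × ℤ) : ℤ × ℤ := (-1 - p.1, 1 - p.2)

theorem ρρ (p : ℤ × ℤ) : ρ (ρ p) = p := by simp [ρ]

def rot (C : Conf 4) : Conf 4 := (C.1 ∘ ρ, ρ C.2.1, -C.2.2)

theorem T_rot (C : Conf 4) : T W (rot C) = rot (T W C) := by
  obtain ⟨c, p, q⟩ := C
  have hi : Injective ρ := Involutive.injective ρρ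
  have ht : ∀ r, turn r (-q) = -turn r q := fun r => by cases r <;> simp [turn]
  simp only [T, rot, comp_apply, ρρ, ht, Prod.mk.injEq, and_true]
  constructor
  · conv_rhs => rw [← ρρ p, update_comp_eq_of_injective _ hi, ρρ]
  · ext <;> simp [ρ] <;> ring

theorem Run.rot {C D : Conf 4} (h : Run C D) : Run (rot C) (rot D) := by
  obtain ⟨n, hn, rfl, h⟩ := h
  have : ∀ t, (T W)^[t] (Strip.rot C) = Strip.rot ((T W)^[t] C) := fun t =>
    (Semiconj.iterate_right (f := Strip.rot) (fun C => (T_rot C).symm) t C).symm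
  refine ⟨n, hn, this n, fun t ht => ?_⟩
  have h := h t ht
  rw [this]
  simp only [Strip.rot, ρ, Set.mem_Icc] at h ⊢
  omega

def P (k : ℤ) (s : ℤ → Fin 4) (p : ℤ × ℤ) : Fin 4 :=
  if p.2 = 2 then (if (p.1 + 1) / 2 * 2 - 1 < k then 3 else 2) else
  if p.2 = -1 then (if p.1 / 2 * 2 < k then 1 else 0) else
  (if p.1 % 2 = 0 then 2 else 0) + if p.2 = p.1 % 2 then (if p.1 < k then 1 + s p.1 else 0) else
    if p.2 = 1 - p.1 % 2 then (if p.1 < k then 2 + s p.1 else if p.1 = k then 2 else 1) else 0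

def G (R L : ℤ × ℤ → Fin 4) (p : ℤ × ℤ) : Fin 4 := if 0 ≤ p.1 then R p else L (ρ p)

theorem G_rot (R L : ℤ × ℤ → Fin 4) : G R L ∘ ρ = G L R := by
  funext p
  simp only [G, comp_apply, ρρ]
  by_cases h : 0 ≤ p.1
  · rw [if_pos h, if_neg (by simp only [ρ]; omega)]
  · rw [if_neg h, if_pos (by simp only [ρ]; omega)]

theorem G_up (R L : ℤ × ℤ → Fin 4) (p : ℤ × ℤ) (h : 0 ≤ p.1) (a : Fin 4) :
    update (G R L) p a = G (update R p a) L := by
  funext x
  by_cases hx : x = p
  · subst hx; simp [G, h]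
  · simp [G, hx]

theorem Run.glue {R : ℤ × ℤ → Fin 4} {p q p' q' : ℤ × ℤ} (L : ℤ × ℤ → Fin 4) (a : Fin 4)
    (ha : R p = a) (h0 : 0 ≤ p.1) (h : p.2 ∈ Set.Icc (-1 : ℤ) 2) (hq : turn (W a) q = q')
    (hp : p + q' = p') {D : Conf 4} (hD : Run (G (update R p (a + 1)) L, p', q') D ∨
      (G (update R p (a + 1)) L, p', q') = D) : Run (G R L, p, q) D := by
  have := one (G R L) p q p' q' a (by simp [G, h0, ha]) h hq hp
  rw [G_up _ _ _ h0] at this
  rcases hD with hD | rfl
  · exact this.trans hD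
  · exact this

def din (j : Fin 4) : ℤ := if j = 0 ∨ j = 3 then -1 else 1
def dout (j : Fin 4) : ℤ := if j = 0 ∨ j = 1 then -1 else 1

theorem pass (k : ℤ) (s : ℤ → Fin 4) (L : ℤ × ℤ → Fin 4) (i : ℤ) (h0 : 0 ≤ i) (hk : i < k) (j : Fin 4)
    (hj : s i = j) : Run (G (P k s) L, (i, i % 2), (din j, 0))
      (G (P k (update s i (j + 1))) L, (i + dout j, (i + dout j) % 2), (dout j, 0)) := by
  have hd : (i + dout j) % 2 = 1 - i % 2 := by unfold dout; split_ifs <;> omega
  rw [hd]
  have key : ∀ a b, a = (if i % 2 = 0 then 2 else 0) + (1 + j) →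
      b = (if i % 2 = 0 then 2 else 0) + (2 + j) →
      update (update (P k s) (i, i % 2) (a + 1)) (i, 1 - i % 2) (b + 1) = P k (update s i (j + 1)) := by
    rintro a b rfl rfl
    funext ⟨x, y⟩
    by_cases hx : x = i
    · subst hx
      rcases Int.emod_two_eq_zero_or_one x with h | h <;>
        simp only [update_apply, P, Prod.mk.injEq, h, hk, hj, true_and, if_true] <;>
        split_ifs <;> first | omega | rfl | abel
    · simp [update_apply, P, hx]
  rcases Int.emod_two_eq_zero_or_one i with h | h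
  · refine Run.glue L (p' := (i, 1 - i % 2)) (q' := (0, 1)) (2 + (1 + j)) (by simp [P, h, hk, hj]) h0
      (by simp [h]) (by fin_cases j <;> decide) (by simp [h]) (.inl ?_)
    refine Run.glue L (p' := (i + dout j, 1 - i % 2)) (q' := (dout j, 0)) (2 + (2 + j)) (by simp [P, h, hk, hj]) h0
      (by simp [h]) (by fin_cases j <;> decide) (by simp) (.inr ?_)
    rw [key _ _ (by simp [h]) (by simp [h])]
  · refine Run.glue L (p' := (i, 1 - i % 2)) (q' := (0, -1)) (0 + (1 + j)) (by simp [P, h, hk, hj]) h0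
      (by simp [h]) (by fin_cases j <;> decide) (by simp [h]) (.inl ?_)
    refine Run.glue L (p' := (i + dout j, 1 - i % 2)) (q' := (dout j, 0)) (0 + (2 + j)) (by simp [P, h, hk, hj]) h0
      (by simp [h]) (by fin_cases j <;> decide) (by simp) (.inr ?_)
    rw [key _ _ (by simp [h]) (by simp [h])]

theorem front (k : ℤ) (s : ℤ → Fin 4) (L : ℤ × ℤ → Fin 4) (h0 : 0 ≤ k) :
    Run (G (P k s) L, (k, k % 2), (1, 0)) (G (P (k + 1) (update s k 0)) L, (k, k % 2), (-1, 0)) := by
  rcases Int.emod_two_eq_zero_or_one k with h | h <;> rw [h]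
  · have h1 : (k + 1) % 2 = 1 := by omega
    refine Run.glue L (p' := (k, -1)) (q' := (0, -1)) 2 (by simp [P, h]) h0
      (by simp) (by decide) (by simp) (.inl ?_)
    refine Run.glue L (p' := (k + 1, -1)) (q' := (1, 0)) 0 (by simp [P]; omega) h0
      (by simp) (by decide) (by simp) (.inl ?_)
    refine Run.glue L (p' := (k + 1, 0)) (q' := (0, 1)) 0 (by simp [P]; omega) (by omega)
      (by simp) (by decide) (by simp) (.inl ?_)
    refine Run.glue L (p' := (k, 0)) (q' := (-1, 0)) 1 (by simp [P, h1]) (by omega) (by simp) (by decide) (by simp) (.inr ?_)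
    congr 2
    funext ⟨x, y⟩
    simp only [update_apply, P, Prod.mk.injEq]
    split_ifs <;> first | omega | rfl
  · have h1 : (k + 1) % 2 = 0 := by omega
    refine Run.glue L (p' := (k, 2)) (q' := (0, 1)) 0 (by simp [P, h]) h0
      (by simp) (by decide) (by simp) (.inl ?_)
    refine Run.glue L (p' := (k + 1, 2)) (q' := (1, 0)) 2 (by simp [P]; omega) h0
      (by simp) (by decide) (by simp) (.inl ?_)
    refine Run.glue L (p' := (k + 1, 1)) (q' := (0, -1)) 2 (by simp [P]; omega) (by omega)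
      (by simp) (by decide) (by simp) (.inl ?_)
    refine Run.glue L (p' := (k, 1)) (q' := (-1, 0)) 3 (by simp [P, h1]) (by omega) (by simp) (by decide) (by simp) (.inr ?_)
    congr 2
    funext ⟨x, y⟩
    simp only [update_apply, P, Prod.mk.injEq]
    split_ifs <;> first | omega | rfl

def A (k : ℤ) := P k fun _ => 2
def B (k : ℤ) := P k fun x => if x = 0 then 1 else 2

theorem exc (L : ℤ × ℤ → Fin 4) (n : ℕ) : ∀ (i : ℤ) (s : ℤ → Fin 4), 0 ≤ i → (∀ x, i ≤ x → s x = 2) →
    Run (G (P (i + n) s) L, (i, i % 2), (1, 0))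
      (G (P (i + n + 1) (update s i 1)) L, (i - 1, (i - 1) % 2), (-1, 0)) := by
  induction n with
  | zero =>
    intro i s h0 hs
    have := (front i s L h0).trans (pass (i + 1) (update s i 0) L i h0 (by omega) 0 (by simp))
    simpa [dout, sub_eq_add_neg] using this
  | succ n ih =>
    intro i s h0 hs
    have h1 := pass (i + (n + 1 : ℕ)) s L i h0 (by omega) 2 (hs i le_rfl)
    have h2 := ih (i + 1) (update s i 3) (by omega) fun x hx => by
      rw [update_of_ne (by omega), hs x (by omega)]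
    have hne : i ≠ i + 1 := by omega
    have h3 := pass (i + 1 + n + 1) (update (update s i 3) (i + 1) 1) L i h0 (by omega) 3
      (by simp [hne])
    have h4 := pass (i + 1 + n + 1) (update (update (update s i 3) (i + 1) 1) i 0) L (i + 1)
      (by omega) (by omega) 1 (by simp [hne.symm])
    have h5 := pass (i + 1 + n + 1) (update (update (update (update s i 3) (i + 1) 1) i 0) (i + 1) 2)
      L i h0 (by omega) 0 (by simp [hne])
    have e : update (update (update (update (update s i 3) (i + 1) 1) i 0) (i + 1) 2) i (0 + 1) =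
        update s i 1 := by
      funext x
      have := hs (i + 1) (by omega)
      simp only [update_apply]
      split_ifs <;> first | rfl | simp [*]
    rw [e] at h5
    have e2 : i + (n + 1 : ℕ) = i + 1 + n := by push_cast; ring
    rw [e2] at h1 ⊢
    rw [add_sub_cancel_right] at h2
    have e3 : i + 1 + dout 1 = i := by simp [dout]
    rw [e3] at h4
    exact h1.trans (h2.trans (h3.trans (h4.trans h5)))

theorem excA (L : ℤ × ℤ → Fin 4) (n : ℕ) :
    Run (G (A n) L, (0, 0), (1, 0)) (G (B (n + 1)) L, (-1, 1), (-1, 0)) := by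
  have := exc L n 0 (fun _ => 2) le_rfl fun _ _ => rfl
  rw [zero_add] at this
  have e : update (fun _ : ℤ => (2 : Fin 4)) 0 1 = fun x => if x = 0 then 1 else 2 :=
    funext fun x => update_apply _ _ _ _
  rw [e] at this
  exact this

theorem passB (L : ℤ × ℤ → Fin 4) (n : ℕ) :
    Run (G (B (n + 1)) L, (0, 0), (1, 0)) (G (A (n + 1)) L, (-1, 1), (-1, 0)) := by
  have := pass (n + 1) (fun x => if x = 0 then 1 else 2) L 0 le_rfl (by omega) 1 (by simp)
  have e : update (fun x : ℤ => if x = 0 then (1 : Fin 4) else 2) 0 (1 + 1) = fun _ => 2 := by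
    funext x; simp only [update_apply]; split_ifs <;> rfl
  rw [e] at this
  exact this

theorem flip {R R' L : ℤ × ℤ → Fin 4} (h : Run (G R L, (0, 0), (1, 0)) (G R' L, (-1, 1), (-1, 0))) :
    Run (G L R, (-1, 1), (-1, 0)) (G L R', (0, 0), (1, 0)) := by
  have := h.rot
  simp only [rot, G_rot] at this
  exact this

def C (n : ℕ) : Conf 4 := (G (A n) (A n), (0, 0), (1, 0))

theorem cyc (n : ℕ) : Run (C n) (C (n + 1)) := by
  unfold C
  push_cast
  exact (excA _ n).trans ((flip (excA _ n)).trans ((passB _ n).trans (flip (passB _ n))))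

theorem result : ∃ (m : ℕ) (_ : NeZero m) (w : Fin m → Bool), (∃ i, w i = false) ∧ (∃ i, w i = true) ∧
    ∃ C : Conf m, C.2.2 ∈ ({(0, 1), (1, 0), (0, -1), (-1, 0)} : Set (ℤ × ℤ)) ∧
      Rec w C ≠ ∅ ∧ Rec w C ≠ Set.univ := by
  have key : ∀ n : ℕ, ∃ N, n ≤ N ∧ (T W)^[N] (C 0) = C n ∧
      ∀ t < N, ((T W)^[t] (C 0)).2.1.2 ∈ Set.Icc (-1 : ℤ) 2 := by
    intro n
    induction n with
    | zero => exact ⟨0, le_rfl, rfl, fun t ht => absurd ht (by omega)⟩
    | succ n ih =>
      obtain ⟨N, hN, h1, h2⟩ := ih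
      obtain ⟨k, hk, h3, h4⟩ := cyc n
      refine ⟨k + N, by omega, by rw [iterate_add_apply, h1, h3], fun t ht => ?_⟩
      by_cases htn : t < N
      · exact h2 t htn
      · obtain ⟨s, rfl⟩ : ∃ s, t = s + N := ⟨t - N, by omega⟩
        rw [iterate_add_apply, h1]; exact h4 s (by omega)
  refine ⟨4, inferInstance, W, ⟨0, rfl⟩, ⟨2, rfl⟩, C 0, by simp [C], ?_, fun h => ?_⟩
  · refine Set.Nonempty.ne_empty ⟨(0, 0), Set.infinite_of_not_bddAbove ?_⟩
    rintro ⟨b, hb⟩
    obtain ⟨N, hN, h1, -⟩ := key (b + 1)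
    have : N ≤ b := hb (show ((T W)^[N] (C 0)).2.1 = (0, 0) by rw [h1]; rfl)
    omega
  · have : ((0, 3) : ℤ × ℤ) ∈ Rec W (C 0) := h ▸ trivial
    obtain ⟨t, ht⟩ := this.nonempty
    obtain ⟨N, hN, -, h2⟩ := key (t + 1)
    have := h2 t (by omega)
    rw [show ((T W)^[t] (C 0)).2.1 = (0, 3) from ht] at this
    simp at this

end Pool.Agent.Results.MP_d11917_an.Strip
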